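import Pool.Agent.R399.TV.Vp

/-!
# Analytic continuation of the L-series of almost all twists of an elliptic curve over a number field

Let `E` be an elliptic curve over a number field `K` and `χ` a primitive Dirichlet character modulo
`q`.  The L-series of `E` twisted by `χ` is

`L(E, χ, s) = ∏_v (1 - χ(Nv) a_v Nv^(-s) + ε_v χ(Nv)² Nv^(1-2s))⁻¹`, `Re s > 3/2`,

(`a_v` and `ε_v` those of `L(E, s)`, the Euler product of the problem; for quadratic `χ` it is the
L-series of a quadratic twist of `E`).  For `K ≠ ℚ` these functions are not known to be entire, and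
nothing is known on their poles in the strip `1/2 < Re s < 3/2` away from a neighbourhood of the edge
`Re s = 3/2` of the logarithmic width of a zero-free region.

If `K` is totally real (Taylor) or CM (Allen, Calegari, Caraiani, Gee, Helm, Le Hung, Newton, Scholze,
Taylor, Thorne), then `E` is potentially modular, and by Brauer's theorem

`L(E, χ, s + 1/2) = ∏_i L(s, π_i ⊗ χ)^(n_i)`, `n_i ∈ ℤ`, for all `χ` at the same time,

where `L(s, π_i ⊗ χ)` are the L-functions of the twists of a cuspidal representation of `GL_2` over an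
extension `F_i` of `K`: Euler products over `ℚ` of degree `m_i = 2 [F_i : ℚ]` which satisfy the
Ramanujan conjecture, are entire and have a functional equation.  This is the structure
`Decomposition`.  The poles of `L(E, χ, s)` come from the zeros of the factors with `n_i < 0`.  Let
`M` be the maximum of the `m_i`.  We prove, with no hypothesis on zeros, that almost all of these
functions are holomorphic and without zeros in a half plane to the left of `Re s = 3/2`:

* (density theorems) for `0 ≤ δ ≤ 1/2`, `T ≥ 0` the number of the primitive `χ` of conductor `q`,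
  `2 ≤ q ≤ Q`, prime to `N` (there are about `Q²` of them), for which `L(E, χ, s)` has no
  continuation to `Re s > 3/2` and `Re s > 1 + δ`, `|Im s| < T`, which is holomorphic and without
  zeros, is at most `C (1 + T)^(2M+1) (1 + log Q)^B Q^(E(M, δ))`; for the characters of one modulus
  `q`, any integer prime to `N`, it is at most `C (1 + T)^(2M+1) (1 + log q)^B q^(E₁(M, δ))`,
  where `E = 2 (1 - 2δ) (3 + (M+1) δ) / (3 - δ)` if `M ≤ 3`,
  `E = 2 (1 - 2δ) (5 + 2Mδ) / (5 - 2δ)` if `M ≥ 4`, and `E₁ = (1 - 2δ) (5 + 4Mδ) / (5 - 2δ)`;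
* (half planes) for every `δ > 0`, `δ > 1/2 - 2/M`, there is `η > 0` such that for all but
  `O(Q^(2-η))` of these `χ` the function `L(E, χ, s)` is holomorphic and without zeros for
  `Re s > 1 + δ`, `|Im s| < Q^η`; and for every `δ > 0`, `δ > 1/2 - 1/M`, there is `η > 0` such that
  this holds for all but `O(q^(1-η))` of the primitive characters modulo `q`, with `|Im s| < q^η`,
  for every modulus `q` prime to `N`.

For instance, if `M ≤ 4` (elliptic curves over real or imaginary quadratic fields `K` which are modular,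
`M = 4`) the first holds for every half plane `Re s > 1 + δ`: the Riemann hypothesis and the
Hasse-Weil conjecture hold for almost all twists up to a distance `δ` from the critical line.

Proof.  `Pool.Agent.R399.TW` (the method of `MP_77948b_nt.TwistsNearLine` of this run): mollifier and
large sieve inequality for the zeros of each family `L(s, π_i ⊗ χ)`; at a point where no factor
vanishes the product is holomorphic and not zero.
-/

set_option autoImplicit false

open Complex NumberField IsDedekindDomain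
open scoped ComplexConjugate

namespace Pool.Agent.Results.MP_7ed9c3_nt.AlmostAllTwists

section

variable {K : Type} [Field K] [NumberField K]

/-- `V v` is, for every `v`, an integral model of `E` with discriminant minimal at `v`. -/
def MinimalModels (E : WeierstrassCurve K)
    (V : HeightOneSpectrum (𝓞 K) → WeierstrassCurve (𝓞 K)) : Prop :=
  ∀ v : HeightOneSpectrum (𝓞 K),
    (∃ C : WeierstrassCurve.VariableChange K, C • E = (V v).map (algebraMap (𝓞 K) K)) ∧
    ∀ W : WeierstrassCurve (𝓞 K),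
      (∃ C : WeierstrassCurve.VariableChange K, C • E = W.map (algebraMap (𝓞 K) K)) →
        ∀ n : ℕ, (V v).Δ ∈ v.asIdeal ^ n → W.Δ ∈ v.asIdeal ^ n

/-- `a_v = Nv - #{affine points of the reduction of V v}`; it is `Nv + 1 - #E(k_v)` if the reduction is
good and `1`, `-1`, `0` if it is split multiplicative, non-split multiplicative, additive. -/
noncomputable def trace (V : HeightOneSpectrum (𝓞 K) → WeierstrassCurve (𝓞 K))
    (v : HeightOneSpectrum (𝓞 K)) : ℤ :=
  (Ideal.absNorm v.asIdeal : ℤ) -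
    (Nat.card {p : (𝓞 K ⧸ v.asIdeal) × (𝓞 K ⧸ v.asIdeal) //
      p.2 ^ 2 + Ideal.Quotient.mk v.asIdeal (V v).a₁ * p.1 * p.2
        + Ideal.Quotient.mk v.asIdeal (V v).a₃ * p.2
      = p.1 ^ 3 + Ideal.Quotient.mk v.asIdeal (V v).a₂ * p.1 ^ 2
        + Ideal.Quotient.mk v.asIdeal (V v).a₄ * p.1
        + Ideal.Quotient.mk v.asIdeal (V v).a₆} : ℤ)

open Classical in
/-- The Euler product `L(E, χ, s)`, `V` being minimal models of `E`. -/
noncomputable def LSeries (V : HeightOneSpectrum (𝓞 K) → WeierstrassCurve (𝓞 K)) {q : ℕ}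
    (χ : DirichletCharacter ℂ q) (s : ℂ) : ℂ :=
  ∏' v : HeightOneSpectrum (𝓞 K),
    (1 - χ ((Ideal.absNorm v.asIdeal : ℕ) : ZMod q) * (trace V v : ℂ) *
        ((Ideal.absNorm v.asIdeal : ℕ) : ℂ) ^ (-s) +
      (if (V v).Δ ∈ v.asIdeal then (0 : ℂ) else 1) *
        χ ((Ideal.absNorm v.asIdeal : ℕ) : ZMod q) ^ 2 *
        ((Ideal.absNorm v.asIdeal : ℕ) : ℂ) ^ (1 - 2 * s))⁻¹

end

/-- `R^(s/2) ∏ Γ_ℝ(s + μ_j)` -/
noncomputable def gammaFactor {m : ℕ} (R : ℝ) (μ : Fin m → ℂ) (s : ℂ) : ℂ :=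
  (R : ℂ) ^ (s / 2) * ∏ j, Gammaℝ (s + μ j)

/-- The data of a family `L(s, π ⊗ χ)`, `χ` a primitive Dirichlet character of conductor `q ≥ 2` prime
to `N`, `π` being a cuspidal representation of `GL_2` over a number field `F` of degree `m / 2`, for
which the Ramanujan conjecture is known: the number `N`, the Satake parameters `α p j` of the Euler
product over `ℚ` (some are zero if `p ∣ N`), the parameters `μ_j` of the Gamma factors
`∏ Γ_ℝ(s + μ_j)`, the completed L-functions `Λ q χ`. -/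
structure Factor (m : ℕ) where
  /-- the conductor -/
  N : ℕ
  /-- the Satake parameters -/
  α : ℕ → Fin m → ℂ
  /-- the archimedean parameters -/
  μ : ℂ → Fin m → ℂ
  /-- the completed L-functions of the twists -/
  Λ : (q : ℕ) → DirichletCharacter ℂ q → ℂ → ℂ
  N_pos : 1 ≤ N
  /-- the Ramanujan conjecture (here: Hasse's theorem) -/
  α_le : ∀ p : ℕ, p.Prime → ∀ j, ‖α p j‖ ≤ 1
  μ_re : ∀ ε : ℂ, ε = 1 ∨ ε = -1 → ∀ j, -1 / 2 < (μ ε j).re
  entire : ∀ (q : ℕ) (χ : DirichletCharacter ℂ q), 2 ≤ q → Nat.Coprime q N → χ.IsPrimitive →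
    Differentiable ℂ (Λ q χ)
  /-- bounded in vertical strips -/
  bounded : ∀ (q : ℕ) (χ : DirichletCharacter ℂ q), 2 ≤ q → Nat.Coprime q N → χ.IsPrimitive →
    ∀ a b : ℝ, ∃ C : ℝ, ∀ s : ℂ, a ≤ s.re → s.re ≤ b → ‖Λ q χ s‖ ≤ C
  /-- the functional equation, `conj Λ(conj s, π ⊗ χ)` being that of the contragredient -/
  functional : ∀ (q : ℕ) (χ : DirichletCharacter ℂ q), 2 ≤ q → Nat.Coprime q N → χ.IsPrimitive →
    ∃ w : ℂ, ‖w‖ = 1 ∧ ∀ s : ℂ, Λ q χ (1 - s) = w * conj (Λ q χ (conj s))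
  euler : ∀ (q : ℕ) (χ : DirichletCharacter ℂ q), 2 ≤ q → Nat.Coprime q N → χ.IsPrimitive →
    ∀ s : ℂ, 1 < s.re → HasProd (fun p : Nat.Primes => ∏ j, (1 - χ ((p : ℕ) : ZMod q) * α p j *
      ((p : ℕ) : ℂ) ^ (-s))⁻¹) (Λ q χ s / gammaFactor ((N : ℝ) * (q : ℝ) ^ m) (μ (χ (-1))) s)

/-- `L(s, π ⊗ χ)` -/
noncomputable def Factor.value {m : ℕ} (π : Factor m) (q : ℕ) (χ : DirichletCharacter ℂ q)
    (s : ℂ) : ℂ :=
  π.Λ q χ s / gammaFactor ((π.N : ℝ) * (q : ℝ) ^ m) (π.μ (χ (-1))) s

/-- The decomposition given by potential modularity and Brauer's theorem, for all `χ` of conductor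
prime to `N`. -/
structure Decomposition {K : Type} [Field K] [NumberField K]
    (V : HeightOneSpectrum (𝓞 K) → WeierstrassCurve (𝓞 K)) where
  /-- the number of factors -/
  r : ℕ
  /-- the degrees -/
  m : Fin r → ℕ
  two_le : ∀ i, 2 ≤ m i
  /-- the factors -/
  π : ∀ i, Factor (m i)
  /-- the exponents -/
  n : Fin r → ℤ
  /-- the exceptional modulus -/
  N : ℕ
  dvd : ∀ i, (π i).N ∣ N
  factorisation : ∀ (q : ℕ) (χ : DirichletCharacter ℂ q), 2 ≤ q → Nat.Coprime q N →
    χ.IsPrimitive → ∀ s : ℂ, 1 < s.re →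
      LSeries V χ (s + 1 / 2) = ∏ i, (π i).value q χ s ^ n i

/-- The function `f` on `Re s > 3/2` has a continuation to the union of `Re s > 3/2` and of
`Re s > 1 + δ`, `|Im s| < T`, which is holomorphic and without zeros. -/
def Continues (f : ℂ → ℂ) (δ T : ℝ) : Prop :=
  ∃ G : ℂ → ℂ, DifferentiableOn ℂ G {s : ℂ | 3 / 2 < s.re ∨ (1 + δ < s.re ∧ |s.im| < T)} ∧
    (∀ s ∈ {s : ℂ | 3 / 2 < s.re ∨ (1 + δ < s.re ∧ |s.im| < T)}, G s ≠ 0) ∧
    ∀ s : ℂ, 3 / 2 < s.re → G s = f s

/-- The number of the primitive Dirichlet characters `χ` of conductor `q`, `2 ≤ q ≤ Q`, `q` prime to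
`N`, which have the property `S q χ`. -/
noncomputable def count (N Q : ℕ) (S : (q : ℕ) → DirichletCharacter ℂ q → Prop) : ℕ :=
  ∑ q ∈ (Finset.Icc 2 Q).filter (fun q => Nat.Coprime q N),
    {χ : DirichletCharacter ℂ q | χ.IsPrimitive ∧ S q χ}.ncard

/-- The number of the primitive Dirichlet characters `χ` modulo `q` which have the property `S χ`. -/
noncomputable def countOne (q : ℕ) (S : DirichletCharacter ℂ q → Prop) : ℕ :=
  {χ : DirichletCharacter ℂ q | χ.IsPrimitive ∧ S χ}.ncard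

/-- The exponent of the density theorem, all moduli. -/
noncomputable def expo (m : ℕ) (δ : ℝ) : ℝ :=
  if m ≤ 3 then 2 * (1 - 2 * δ) * (3 + (m + 1) * δ) / (3 - δ)
  else 2 * (1 - 2 * δ) * (5 + 2 * m * δ) / (5 - 2 * δ)

/-- The exponent of the density theorem, one modulus. -/
noncomputable def expoOne (m : ℕ) (δ : ℝ) : ℝ := (1 - 2 * δ) * (5 + 4 * m * δ) / (5 - 2 * δ)

/-! ### Auxiliary facts -/

/-- the form used by the library -/
noncomputable def Factor.toFD {m : ℕ} (π : Factor m) : Pool.Agent.R399.TV.FD m where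
  N := π.N
  α := π.α
  μ := π.μ
  Λ := π.Λ
  N_pos := π.N_pos
  α_le := π.α_le
  μ_re := π.μ_re
  entire := π.entire
  bdd := π.bounded
  fe := π.functional
  euler := π.euler

lemma value_eq {m : ℕ} (π : Factor m) (q : ℕ) (χ : DirichletCharacter ℂ q) (s : ℂ) :
    π.value q χ s = π.toFD.F q χ s := by
  rw [Pool.Agent.R399.TV.FD.F_eq]
  rfl

lemma Decomposition.vp {K : Type} [Field K] [NumberField K]
    {V : HeightOneSpectrum (𝓞 K) → WeierstrassCurve (𝓞 K)} (P : Decomposition V) :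
    Pool.Agent.R399.TV.VP (fun i => (P.π i).toFD) P.n P.N (fun _ χ => LSeries V χ) where
  dvd := P.dvd
  fac := fun q χ hq hqN hχ s hs => by
    rw [P.factorisation q χ hq hqN hχ s hs]
    exact Finset.prod_congr rfl fun i _ => by rw [value_eq]

/-- **Theorem.** Let `E` be an elliptic curve over a number field `K` with minimal models `V`, with the
decomposition `P`, and let all degrees of `P` be at most `M`.  (1), (2) The density theorems, for all
moduli up to `Q` and for one modulus `q`.  (3), (4) Half planes in which almost all `L(E, χ, s)` are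
holomorphic and without zeros. -/
theorem result (K : Type) [Field K] [NumberField K] (E : WeierstrassCurve K) (_hE : E.IsElliptic)
    (V : HeightOneSpectrum (𝓞 K) → WeierstrassCurve (𝓞 K)) (_hV : MinimalModels E V)
    (P : Decomposition V) (M : ℕ) (hM2 : 2 ≤ M) (hM : ∀ i, P.m i ≤ M) :
    (∃ C B : ℝ, ∀ (Q : ℕ) (δ T : ℝ), 1 ≤ Q → 0 ≤ δ → δ ≤ 1 / 2 → 0 ≤ T →
      (count P.N Q (fun _ χ => ¬ Continues (LSeries V χ) δ T) : ℝ) ≤
        C * (1 + T) ^ (2 * M + 1) * (1 + Real.log Q) ^ B * (Q : ℝ) ^ (expo M δ)) ∧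
    (∃ C B : ℝ, ∀ (q : ℕ) (δ T : ℝ), 2 ≤ q → Nat.Coprime q P.N → 0 ≤ δ → δ ≤ 1 / 2 → 0 ≤ T →
      (countOne q (fun χ => ¬ Continues (LSeries V χ) δ T) : ℝ) ≤
        C * (1 + T) ^ (2 * M + 1) * (1 + Real.log q) ^ B * (q : ℝ) ^ (expoOne M δ)) ∧
    (∀ δ : ℝ, 0 < δ → 1 / 2 - 2 / (M : ℝ) < δ → ∃ C η : ℝ, 0 < η ∧ ∀ Q : ℕ, 1 ≤ Q →
      (count P.N Q (fun _ χ => ¬ Continues (LSeries V χ) δ ((Q : ℝ) ^ η)) : ℝ) ≤
        C * (Q : ℝ) ^ (2 - η)) ∧
    (∀ δ : ℝ, 0 < δ → 1 / 2 - 1 / (M : ℝ) < δ → ∃ C η : ℝ, 0 < η ∧ ∀ q : ℕ, 2 ≤ q →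
      Nat.Coprime q P.N →
      (countOne q (fun χ => ¬ Continues (LSeries V χ) δ ((q : ℝ) ^ η)) : ℝ) ≤
        C * (q : ℝ) ^ (1 - η)) := by
  have h := P.vp
  refine ⟨?_, ?_, fun δ h0 h1 => ?_, fun δ h0 h1 => ?_⟩
  · obtain ⟨C, B, -, -, h2⟩ := h.dens2 hM
    exact ⟨C, B, h2⟩
  · obtain ⟨C, B, -, -, h2⟩ := h.dens1 hM P.two_le
    exact ⟨C, B, h2⟩
  · exact h.half2 hM h0 h1
  · exact h.half1 hM P.two_le hM2 h0 h1

end Pool.Agent.Results.MP_7ed9c3_nt.AlmostAllTwists
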