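import Mathlib
import Pool.Agent.R362.SH.Rel

/-!
# Holomorphy of the L-functions of potentially automorphic elliptic curves at points of small order

Let `E` be an elliptic curve over a number field `K` and `F/K` a finite Galois extension with group
`G` such that `E` becomes automorphic over `F`. For `K` totally real or CM such an extension exists
(potential automorphy). By solvable descent (Langlands, Arthur-Clozel) `E` is automorphic over the
fixed fields `F^H` of all SOLVABLE subgroups `H`, and `L(E/F^H, ψ, s)` is entire for the characters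
`ψ` of these `H`; for the other intermediate fields (in particular for `K`) only the meromorphic
continuation is known (Brauer induction). `PotentialData G s₀` lists these properties of the
functions `L χ = L(E/K ⊗ χ, s)`, `χ` an irreducible character of `G`, and
`Lin H ψ = L(E/F^H, ψ, s)`, `ψ` a linear character of `H`, near a point `s₀`.

We prove for every finite group `G` and every `s₀`:

1. let `H` be a subgroup, `ψ` a linear character of `H`, and `N` a solvable normal subgroup of `H`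
   (for example `1`). If `L(E/F^N, ψ|_N, s)` vanishes to order at most two at `s₀`, then
   `L(E/F^H, ψ, s)` has no pole at `s₀`.
2. Suppose that `L(E/F, s)` has order `r ≤ 2` at `s₀`. Then `L(E/M, ψ, s)` has no pole at `s₀` for
   ALL intermediate fields `M` and characters `ψ`, and `L(E/K ⊗ χ, s)` has no pole for all monomial
   irreducible characters `χ` of `G`; all `L(E/K ⊗ χ, s)`, `χ` irreducible, have at most a simple
   pole. If `r = 0`, none of them has a zero or pole; if `r = 1`, exactly one of them has, and this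
   `χ` is linear and the zero is simple; if `r = 2` and `L(E/M, ψ, s₀) = 0`, `M = F^H`, there is a
   second character `μ` of `H` such that `L(E/M', φ, s)` has at `s₀` the order
   `[φ = ψ|_{H'}] + [φ = μ|_{H'}]` for all fields `M' = F^{H'}` between `M` and `F`.
3. For every `r ≥ 1`: the poles of all `L(E/M, ψ, s)` at `s₀` have order less than `r`.

The proof: the orders at `s₀` give a class function on `G` of degree `r`, whose multiplicities at the
linear characters of the solvable subgroups are natural numbers. For `r = 2` its determinant `D` is a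
linear character. If `D = 1`, the multiplicities are even for all subgroups, because they are even
for the hyperelementary subgroups, and they are at least `-1`. If `D ≠ 1`, the multiplicities at
`1` and at `D` are equal, and Bessel's inequality for the powers of `D` together with the
multiplicities for the kernel of `D` shows that they are not negative.
-/

set_option autoImplicit false
set_option linter.unusedSectionVars false

namespace Pool.Agent.Results.MP_7ed9c3_nt.DoubleZeros

open Pool.Agent.H302R2 Pool.Agent.H541R3.ART Pool.Agent.R362.SH Filter Topology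

/-- Functions with the known formal properties, near a point `s₀`, of the L-functions of an
elliptic curve over `K` which is automorphic over the Galois extension `F/K` with group `G`:
`L χ` stands for `L(E/K ⊗ χ, s)`, `χ` an irreducible character of `G`, and `Lin H ψ` for
`L(E/F^H, ψ, s)`, `ψ` a linear character of the subgroup `H`. -/
structure PotentialData (G : Type) [Group G] (s₀ : ℂ) where
  L : (G → ℂ) → ℂ → ℂ
  Lin : (H : Subgroup G) → (H →* ℂˣ) → ℂ → ℂ
  /-- meromorphic and not identically zero near `s₀` -/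
  mero : ∀ χ ∈ Irr G, MeromorphicAt (L χ) s₀ ∧ meromorphicOrderAt (L χ) s₀ ≠ ⊤
  /-- automorphy over the fixed fields of the SOLVABLE subgroups: no poles -/
  automorphic : ∀ H : Subgroup G, Group.IsSolvable H → ∀ ψ : H →* ℂˣ,
    0 ≤ meromorphicOrderAt (Lin H ψ) s₀
  /-- induction: `Lin H ψ` is the product of the `L χ ^ ⟨χ|_H, ψ⟩` -/
  induce : ∀ (H : Subgroup G) (ψ : H →* ℂˣ) (m : (G → ℂ) → ℕ),
    (∀ χ ∈ Irr G, ∑ᶠ h : H, χ h * (((ψ h)⁻¹ : ℂˣ) : ℂ) = (m χ : ℂ) * (Nat.card H : ℂ)) →
    Lin H ψ =ᶠ[𝓝[≠] s₀] fun s => ∏ᶠ χ ∈ Irr G, L χ s ^ m χ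

section data

variable {G : Type} [Group G] [Finite G] {s₀ : ℂ} (A : PotentialData G s₀)

/-- the orders at `s₀` -/
noncomputable def PotentialData.ord (χ : G → ℂ) : ℤ := (meromorphicOrderAt (A.L χ) s₀).untop₀

lemma PotentialData.coe_ord {χ : G → ℂ} (hχ : χ ∈ Irr G) :
    (A.ord χ : WithTop ℤ) = meromorphicOrderAt (A.L χ) s₀ :=
  WithTop.coe_untop₀_of_ne_top (A.mero χ hχ).2

lemma PotentialData.order_Lin (H : Subgroup G) (ψ : H →* ℂˣ) (m : (G → ℂ) → ℕ)
    (hm : ∀ χ ∈ Irr G, ∑ᶠ h : H, χ h * (((ψ h)⁻¹ : ℂˣ) : ℂ) = (m χ : ℂ) * (Nat.card H : ℂ)) :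
    meromorphicOrderAt (A.Lin H ψ) s₀ = ((∑ χ ∈ irrF G, (m χ : ℤ) * A.ord χ : ℤ) : WithTop ℤ) := by
  classical
  rw [meromorphicOrderAt_congr (A.induce H ψ m hm)]
  have h1 : (fun s => ∏ᶠ χ ∈ Irr G, A.L χ s ^ m χ)
      = fun s => ∏ χ ∈ irrF G, (A.L χ ^ m χ) s := by
    funext s
    rw [finprod_mem_eq_finite_toFinset_prod _ (irr_finite (G := G))]
    rfl
  rw [h1, meromorphicOrderAt_fun_prod (fun χ hχ => ((A.mero χ (mem_irrF.mp hχ)).1).pow _)]
  rw [WithTop.coe_sum]
  refine Finset.sum_congr rfl fun χ hχ => ?_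
  rw [meromorphicOrderAt_pow ((A.mero χ (mem_irrF.mp hχ)).1), ← A.coe_ord (mem_irrF.mp hχ)]
  push_cast
  rfl

/-- the order of `Lin H ψ` is the multiplicity of `ψ` in the class function of the orders -/
lemma PotentialData.mult_Lin (H : Subgroup G) (ψ : H →* ℂˣ) : ∃ n : ℤ,
    ∑ᶠ h : H, theta A.ord h * (((ψ h)⁻¹ : ℂˣ) : ℂ) = (n : ℂ) * (Nat.card H : ℂ) ∧
      meromorphicOrderAt (A.Lin H ψ) s₀ = (n : WithTop ℤ) := by
  choose! m hm using fun χ (hχ : χ ∈ Irr G) => exists_mult hχ H ψ
  exact ⟨_, theta_mult A.ord H ψ m hm, A.order_Lin H ψ m hm⟩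

lemma PotentialData.eq_of_mult {H : Subgroup G} {ψ : H →* ℂˣ} {n : ℤ}
    (h : ∑ᶠ h : H, theta A.ord h * (((ψ h)⁻¹ : ℂˣ) : ℂ) = (n : ℂ) * (Nat.card H : ℂ)) :
    meromorphicOrderAt (A.Lin H ψ) s₀ = (n : WithTop ℤ) := by
  obtain ⟨m, hm, ho⟩ := A.mult_Lin H ψ
  rw [ho]
  rw [hm] at h
  have hH : (Nat.card H : ℂ) ≠ 0 := by exact_mod_cast Nat.card_pos.ne'
  have h2 := mul_right_cancel₀ hH h
  have h3 : m = n := by exact_mod_cast h2
  rw [h3]

lemma PotentialData.mult_of_eq {H : Subgroup G} {ψ : H →* ℂˣ} {n : ℤ}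
    (h : meromorphicOrderAt (A.Lin H ψ) s₀ = (n : WithTop ℤ)) :
    ∑ᶠ h : H, theta A.ord h * (((ψ h)⁻¹ : ℂˣ) : ℂ) = (n : ℂ) * (Nat.card H : ℂ) := by
  obtain ⟨m, hm, ho⟩ := A.mult_Lin H ψ
  rw [hm]
  rw [ho] at h
  have h3 : m = n := by exact_mod_cast h
  rw [h3]

lemma PotentialData.solv : IsSolvHeilbronn (theta A.ord : G → ℂ) where
  conj g h := by
    unfold theta
    exact Finset.sum_congr rfl fun χ hχ => by rw [Irr.conj (mem_irrF.mp hχ)]
  int H ψ := by
    obtain ⟨n, hn, -⟩ := A.mult_Lin H ψ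
    exact ⟨n, hn⟩
  mult H hH ψ := by
    obtain ⟨n, hn, ho⟩ := A.mult_Lin H ψ
    have h := A.automorphic H hH ψ
    rw [ho] at h
    have h0 : 0 ≤ n := by exact_mod_cast h
    obtain ⟨k, rfl⟩ := Int.eq_ofNat_of_zero_le h0
    exact ⟨k, by rw [hn]; simp⟩

lemma PotentialData.theta_one {r : ℤ} (h : meromorphicOrderAt (A.Lin ⊥ 1) s₀ = (r : WithTop ℤ)) :
    (theta A.ord : G → ℂ) 1 = r := by
  have h1 := A.mult_of_eq h
  have : Fintype (⊥ : Subgroup G) := Fintype.ofFinite _
  rw [finsum_eq_sum_of_fintype, Fintype.sum_eq_single (1 : (⊥ : Subgroup G))] at h1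
  · simpa using h1
  · intro x hx
    exact absurd (Subsingleton.elim x 1) hx

end data

section chars

open Classical in
/-- sums of products of linear characters -/
lemma lin_pair {H : Type} [Group H] [Finite H] (φ ψ : H →* ℂˣ) :
    ∑ᶠ h : H, ((ψ h : ℂˣ) : ℂ) * (((φ h)⁻¹ : ℂˣ) : ℂ)
      = (if φ = ψ then 1 else 0 : ℤ) * (Nat.card H : ℂ) := by
  classical
  have : Fintype H := Fintype.ofFinite _
  rw [finsum_eq_sum_of_fintype]
  by_cases h : φ = ψ
  · subst h
    rw [if_pos rfl]
    have h1 : ∀ x : H, ((φ x : ℂˣ) : ℂ) * (((φ x)⁻¹ : ℂˣ) : ℂ) = 1 := fun x => Units.mul_inv _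
    rw [Finset.sum_congr rfl fun x _ => h1 x]
    simp
  · rw [if_neg h]
    have hne : ψ * φ⁻¹ ≠ 1 := by
      intro h1
      exact h (mul_inv_eq_one.mp h1).symm
    have h2 : ∑ x : H, (((ψ * φ⁻¹) x : ℂˣ) : ℂ) = 0 := by
      refine sum_hom_units_eq_zero ((Units.coeHom ℂ).comp (ψ * φ⁻¹)) ?_
      intro h2
      apply hne
      ext g
      exact congrArg (fun f : H →* ℂ => f g) h2
    have h3 : ∀ x : H, ((ψ x : ℂˣ) : ℂ) * (((φ x)⁻¹ : ℂˣ) : ℂ) = (((ψ * φ⁻¹) x : ℂˣ) : ℂ) := by
      intro x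
      simp
    rw [Finset.sum_congr rfl fun x _ => h3 x, h2]
    simp

end chars

open Classical in
/-- **Holomorphy at points of order at most two.** -/
theorem result (G : Type) [Group G] [Finite G] (s₀ : ℂ) (A : PotentialData G s₀) :
    -- (1) relative to a solvable normal subgroup
    (∀ (H N : Subgroup G) (hN : N ≤ H), (N.subgroupOf H).Normal → Group.IsSolvable N →
      ∀ ψ : H →* ℂˣ,
        meromorphicOrderAt (A.Lin N (ψ.comp (Subgroup.inclusion hN))) s₀ ≤ ((2 : ℤ) : WithTop ℤ) →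
        0 ≤ meromorphicOrderAt (A.Lin H ψ) s₀) ∧
    -- (2) points where `L(E/F, s)` has order at most two
    (meromorphicOrderAt (A.Lin ⊥ 1) s₀ ≤ ((2 : ℤ) : WithTop ℤ) →
      (∀ (H : Subgroup G) (ψ : H →* ℂˣ), 0 ≤ meromorphicOrderAt (A.Lin H ψ) s₀) ∧
      (∀ χ ∈ Irr G, ∀ (H : Subgroup G) (ψ : H →* ℂˣ),
        (∀ χ' ∈ Irr G, ∑ᶠ h : H, χ' h * (((ψ h)⁻¹ : ℂˣ) : ℂ)
          = (if χ' = χ then 1 else 0) * (Nat.card H : ℂ)) →
        0 ≤ meromorphicOrderAt (A.L χ) s₀) ∧
      (∀ χ ∈ Irr G, ((-1 : ℤ) : WithTop ℤ) ≤ meromorphicOrderAt (A.L χ) s₀)) ∧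
    (meromorphicOrderAt (A.Lin ⊥ 1) s₀ = 0 → ∀ χ ∈ Irr G, meromorphicOrderAt (A.L χ) s₀ = 0) ∧
    (meromorphicOrderAt (A.Lin ⊥ 1) s₀ = 1 → ∃ l : G →* ℂˣ, ∀ χ ∈ Irr G,
      (χ = (fun g => ((l g : ℂˣ) : ℂ)) → meromorphicOrderAt (A.L χ) s₀ = 1) ∧
      (χ ≠ (fun g => ((l g : ℂˣ) : ℂ)) → meromorphicOrderAt (A.L χ) s₀ = 0)) ∧
    (meromorphicOrderAt (A.Lin ⊥ 1) s₀ = ((2 : ℤ) : WithTop ℤ) → ∀ (H : Subgroup G) (ψ : H →* ℂˣ),
      meromorphicOrderAt (A.Lin H ψ) s₀ ≠ 0 → ∃ μ : H →* ℂˣ, ∀ (H' : Subgroup G) (hH : H' ≤ H)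
        (φ : H' →* ℂˣ), meromorphicOrderAt (A.Lin H' φ) s₀
          = (((if φ = ψ.comp (Subgroup.inclusion hH) then 1 else 0)
            + (if φ = μ.comp (Subgroup.inclusion hH) then 1 else 0) : ℤ) : WithTop ℤ)) ∧
    -- (3) the order of the poles
    (∀ r : ℕ, 0 < r → meromorphicOrderAt (A.Lin ⊥ 1) s₀ = ((r : ℤ) : WithTop ℤ) →
      ∀ (H : Subgroup G) (ψ : H →* ℂˣ),
        ((-r : ℤ) : WithTop ℤ) < meromorphicOrderAt (A.Lin H ψ) s₀) := by
  have hS := A.solv
  have hnat : ∃ r : ℕ, meromorphicOrderAt (A.Lin ⊥ 1) s₀ = ((r : ℤ) : WithTop ℤ) := by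
    obtain ⟨n, hn, ho⟩ := A.mult_Lin ⊥ 1
    have h := A.automorphic ⊥ inferInstance 1
    rw [ho] at h
    have h0 : 0 ≤ n := by exact_mod_cast h
    obtain ⟨k, rfl⟩ := Int.eq_ofNat_of_zero_le h0
    exact ⟨k, ho⟩
  obtain ⟨r, hr⟩ := hnat
  have h1 : (theta A.ord : G → ℂ) 1 = r := by
    have := A.theta_one hr
    exact_mod_cast this
  have hGc : (Nat.card G : ℂ) ≠ 0 := by exact_mod_cast Nat.card_pos.ne'
  have key : r ≤ 2 → IsHeilbronn (theta A.ord : G → ℂ) := fun h => hS.isHeilbronn h1 h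
  have hnn : r ≤ 2 → ∀ (H : Subgroup G) (ψ : H →* ℂˣ), 0 ≤ meromorphicOrderAt (A.Lin H ψ) s₀ := by
    intro h H ψ
    obtain ⟨n, hn⟩ := (key h).mult H ψ
    have h2 := A.eq_of_mult (H := H) (ψ := ψ) (n := (n : ℤ)) (by rw [hn]; simp)
    rw [h2]
    have : (0 : ℤ) ≤ n := by positivity
    exact_mod_cast this
  have hle : meromorphicOrderAt (A.Lin ⊥ 1) s₀ ≤ ((2 : ℤ) : WithTop ℤ) → r ≤ 2 := by
    intro h
    rw [hr] at h
    have : (r : ℤ) ≤ 2 := WithTop.coe_le_coe.mp h
    exact_mod_cast this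
  refine ⟨?_, ?_, ?_, ?_, ?_, ?_⟩
  · intro H N hN hnorm hsol ψ hle2
    obtain ⟨n, hn, ho⟩ := A.mult_Lin N (ψ.comp (Subgroup.inclusion hN))
    have h0 := A.automorphic N hsol (ψ.comp (Subgroup.inclusion hN))
    rw [ho] at h0 hle2
    have h0' : 0 ≤ n := by exact_mod_cast h0
    have h2' : n ≤ 2 := WithTop.coe_le_coe.mp hle2
    obtain ⟨k, rfl⟩ := Int.eq_ofNat_of_zero_le h0'
    have hsol' : Group.IsSolvable (N.subgroupOf H) :=
      Group.isSolvable_of_isSolvable_injective
        (f := (Subgroup.subgroupOfEquivOfLe hN).toMonoidHom)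
        (Subgroup.subgroupOfEquivOfLe hN).injective
    have hcard : Nat.card (N.subgroupOf H) = Nat.card N :=
      Nat.card_congr (Subgroup.subgroupOfEquivOfLe hN).toEquiv
    obtain ⟨m, hm⟩ := nonneg_of_normal (hS.comp H.subtype) ψ (N.subgroupOf H) hsol' (r := k)
      (by exact_mod_cast h2') (by
        rw [hcard]
        have : ((k : ℤ) : ℂ) = (k : ℂ) := by simp
        rw [← this, ← hn]
        exact finsum_comp_equiv (Subgroup.subgroupOfEquivOfLe hN).toEquiv
          (f := fun x : N => theta A.ord (x : G)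
            * (((ψ.comp (Subgroup.inclusion hN) x)⁻¹ : ℂˣ) : ℂ)))
    have h2 := A.eq_of_mult (H := H) (ψ := ψ) (n := (m : ℤ)) (by
      rw [Int.cast_natCast, ← hm]
      rfl)
    rw [h2]
    have : (0 : ℤ) ≤ m := by positivity
    exact_mod_cast this
  · intro h
    have h2 := hle h
    refine ⟨hnn h2, ?_, ?_⟩
    · intro χ hχ H ψ hm
      let m : (G → ℂ) → ℕ := fun χ' => if χ' = χ then 1 else 0
      have hm' : ∀ χ' ∈ Irr G, ∑ᶠ h : H, χ' h * (((ψ h)⁻¹ : ℂˣ) : ℂ)
          = (m χ' : ℂ) * (Nat.card H : ℂ) := by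
        intro χ' hχ'
        rw [hm χ' hχ']
        congr 1
        simp only [m]
        split_ifs <;> simp
      have h3 := A.order_Lin H ψ m hm'
      have h4 : (∑ χ' ∈ irrF G, (m χ' : ℤ) * A.ord χ' : ℤ) = A.ord χ := by
        rw [Finset.sum_eq_single χ]
        · simp [m]
        · intro b _ hb
          simp [m, hb]
        · intro hb
          exact absurd (mem_irrF.mpr hχ) hb
      rw [h4, A.coe_ord hχ] at h3
      rw [← h3]
      exact hnn h2 H ψ
    · intro χ hχ
      rw [← A.coe_ord hχ]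
      have hb : -1 ≤ A.ord χ := by
        by_contra hcon
        push Not at hcon
        have hcon : A.ord χ ≤ -2 := by omega
        -- the norm of the class function
        have : Fintype G := Fintype.ofFinite _
        have hp := theta_pair A.ord hχ
        have hself := pair_self hχ
        -- Cauchy-Schwarz at all elements: `|Σ θ(g) χ(g⁻¹)| ≤ …`
        have hn1 : ∑ g : G, ‖(theta A.ord : G → ℂ) g‖ ^ 2 ≤ 4 * Nat.card G := by
          have h3 : ∀ g ∈ (Finset.univ : Finset G), ‖(theta A.ord : G → ℂ) g‖ ^ 2 ≤ 4 := by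
            intro g _
            have h4 := hS.norm_le g
            rw [h1, Complex.natCast_re] at h4
            have h5 : (r : ℝ) ≤ 2 := by exact_mod_cast h2
            nlinarith [norm_nonneg ((theta A.ord : G → ℂ) g)]
          calc _ ≤ ∑ g : G, (4 : ℝ) := Finset.sum_le_sum h3
            _ = _ := by simp [mul_comm]
        have hinv : ∀ g, χ g⁻¹ = (starRingEnd ℂ) (χ g) := by
          intro g
          exact Pool.Agent.R362.SH.irr_inv hχ g
        have hchi : ∑ g : G, ‖χ g‖ ^ 2 = Nat.card G := by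
          have h5 : ∑ g : G, χ g * χ g⁻¹ = ((∑ g : G, ‖χ g‖ ^ 2 : ℝ) : ℂ) := by
            push_cast
            refine Finset.sum_congr rfl fun g _ => ?_
            rw [hinv, Complex.mul_conj, Complex.normSq_eq_norm_sq]
            push_cast; rfl
          rw [hself] at h5
          exact_mod_cast h5.symm
        -- expand `Σ ‖θ - n χ‖²`
        have h6 : ∑ g : G, ‖(theta A.ord : G → ℂ) g - (A.ord χ : ℂ) * χ g‖ ^ 2
            = ∑ g : G, ‖(theta A.ord : G → ℂ) g‖ ^ 2 - (A.ord χ : ℝ) ^ 2 * Nat.card G := by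
          have h7 : ∀ g : G, ‖(theta A.ord : G → ℂ) g - (A.ord χ : ℂ) * χ g‖ ^ 2
              = ‖(theta A.ord : G → ℂ) g‖ ^ 2
                - 2 * (A.ord χ : ℝ) * ((theta A.ord : G → ℂ) g * χ g⁻¹).re
                + (A.ord χ : ℝ) ^ 2 * ‖χ g‖ ^ 2 := by
            intro g
            rw [hinv, ← Complex.normSq_eq_norm_sq, ← Complex.normSq_eq_norm_sq,
              ← Complex.normSq_eq_norm_sq, Complex.normSq_sub, Complex.normSq_mul, map_mul]
            have h8 : (starRingEnd ℂ) ((A.ord χ : ℂ)) = ((A.ord χ : ℝ) : ℂ) := by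
              rw [map_intCast]; simp
            have h9 : Complex.normSq (A.ord χ : ℂ) = (A.ord χ : ℝ) ^ 2 := by
              rw [Complex.normSq_intCast]; ring
            rw [h8, h9]
            have h10 : ((theta A.ord : G → ℂ) g
                * (((A.ord χ : ℝ) : ℂ) * (starRingEnd ℂ) (χ g))).re
                = (A.ord χ : ℝ) * ((theta A.ord : G → ℂ) g * (starRingEnd ℂ) (χ g)).re := by
              rw [mul_left_comm, Complex.re_ofReal_mul]
            rw [h10]
            ring
          rw [Finset.sum_congr rfl fun g _ => h7 g, Finset.sum_add_distrib,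
            Finset.sum_sub_distrib, ← Finset.mul_sum, ← Finset.mul_sum, ← Complex.re_sum, hp, hchi]
          have h11 : (((A.ord χ : ℂ)) * (Nat.card G : ℂ)).re = (A.ord χ : ℝ) * Nat.card G := by
            have : (((A.ord χ : ℂ)) * (Nat.card G : ℂ))
                = (((A.ord χ : ℝ) * (Nat.card G : ℝ) : ℝ) : ℂ) := by push_cast; rfl
            rw [this, Complex.ofReal_re]
          rw [h11]
          ring
        have hGpos : (0 : ℝ) < Nat.card G := by exact_mod_cast Nat.card_pos
        have h12 : (4 : ℝ) ≤ (A.ord χ : ℝ) ^ 2 := by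
          have : (A.ord χ : ℝ) ≤ -2 := by exact_mod_cast hcon
          nlinarith
        have h13 : ∑ g : G, ‖(theta A.ord : G → ℂ) g - (A.ord χ : ℂ) * χ g‖ ^ 2 ≤ 0 := by
          rw [h6]
          nlinarith
        have h14 := le_antisymm h13 (Finset.sum_nonneg fun g _ => by positivity)
        have h15 := (Finset.sum_eq_zero_iff_of_nonneg (fun g _ => by positivity)).mp h14 1
          (Finset.mem_univ _)
        have h16 : (theta A.ord : G → ℂ) 1 - (A.ord χ : ℂ) * χ 1 = 0 := by
          rw [← norm_eq_zero]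
          exact pow_eq_zero_iff (two_ne_zero) |>.mp h15
        obtain ⟨d, hd0, hd⟩ := Pool.Agent.W446.AS.irr_deg_pos hχ
        rw [h1, hd] at h16
        have h17 : ((r : ℤ) - A.ord χ * d : ℤ) = 0 := by exact_mod_cast h16
        have h18 : A.ord χ * d < 0 := by
          have : (0 : ℤ) < d := by exact_mod_cast hd0
          nlinarith
        have h19 : (0 : ℤ) ≤ r := by positivity
        linarith
      exact WithTop.coe_le_coe.mpr hb
  · intro h χ hχ
    have hr0 : r = 0 := by
      rw [hr] at h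
      have : (r : ℤ) = 0 := by exact_mod_cast h
      exact_mod_cast this
    subst hr0
    have : Fintype G := Fintype.ofFinite _
    have hz : ∀ g, (theta A.ord : G → ℂ) g = 0 := by
      intro g
      have h4 := hS.norm_le g
      rw [h1] at h4
      simp only [Nat.cast_zero, Complex.zero_re] at h4
      exact norm_le_zero_iff.mp h4
    have hp := theta_pair A.ord hχ
    rw [Finset.sum_eq_zero (fun g _ => by rw [hz, zero_mul])] at hp
    rw [← A.coe_ord hχ]
    rcases mul_eq_zero.mp hp.symm with h5 | h5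
    · have : A.ord χ = 0 := by exact_mod_cast h5
      rw [this]; rfl
    · exact absurd h5 hGc
  · intro h
    have hr1 : r = 1 := by
      rw [hr] at h
      have : (r : ℤ) = 1 := by exact_mod_cast h
      exact_mod_cast this
    subst hr1
    have : Fintype G := Fintype.ofFinite _
    obtain ⟨l, hl⟩ := hS.toSol.deg_one (by simpa using h1)
    have hlI := Pool.Agent.TH820.lin_irr l
    have hth : (theta A.ord : G → ℂ) = fun g => ((l g : ℂˣ) : ℂ) := funext hl
    refine ⟨l, fun χ hχ => ⟨fun hc => ?_, fun hc => ?_⟩⟩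
    · have hp := theta_pair A.ord hχ
      rw [hth, ← hc, pair_self hχ] at hp
      rw [← A.coe_ord hχ]
      have h5 : (1 : ℂ) * Nat.card G = (A.ord χ : ℂ) * Nat.card G := by rw [one_mul]; exact hp
      have h6 := mul_right_cancel₀ hGc h5
      have : A.ord χ = 1 := by exact_mod_cast h6.symm
      rw [this]; rfl
    · have hp := theta_pair A.ord hχ
      rw [hth, pair_ne hlI hχ (Ne.symm hc)] at hp
      rw [← A.coe_ord hχ]
      rcases mul_eq_zero.mp hp.symm with h5 | h5
      · have : A.ord χ = 0 := by exact_mod_cast h5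
        rw [this]; rfl
      · exact absurd h5 hGc
  · intro h H ψ hne
    have hr2 : r = 2 := by
      rw [hr] at h
      have : (r : ℤ) = 2 := WithTop.coe_injective h
      exact_mod_cast this
    subst hr2
    have hH := (key le_rfl).comp H.subtype
    obtain ⟨n, hn, ho⟩ := A.mult_Lin H ψ
    have hsum : ∑ᶠ h : H, (theta A.ord : G → ℂ) h * (((ψ h)⁻¹ : ℂˣ) : ℂ) ≠ 0 := by
      rw [hn]
      intro h0
      apply hne
      rw [ho]
      rcases mul_eq_zero.mp h0 with h5 | h5
      · have : n = 0 := by exact_mod_cast h5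
        rw [this]; rfl
      · have : (Nat.card H : ℂ) ≠ 0 := by exact_mod_cast Nat.card_pos.ne'
        exact absurd h5 this
    obtain ⟨μ, hμ⟩ := hH.two_contains (by simpa using h1) ψ hsum
    refine ⟨μ, fun H' hH' φ => ?_⟩
    apply A.eq_of_mult
    have h3 : ∀ x : H', (theta A.ord : G → ℂ) x * (((φ x)⁻¹ : ℂˣ) : ℂ)
        = ((ψ.comp (Subgroup.inclusion hH') x : ℂˣ) : ℂ) * (((φ x)⁻¹ : ℂˣ) : ℂ)
          + ((μ.comp (Subgroup.inclusion hH') x : ℂˣ) : ℂ) * (((φ x)⁻¹ : ℂˣ) : ℂ) := by
      intro x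
      have h4 := hμ (Subgroup.inclusion hH' x)
      simp only [Subgroup.coe_subtype, Subgroup.coe_inclusion] at h4
      rw [h4]
      simp only [MonoidHom.comp_apply]
      ring
    have hf : Finite H' := inferInstance
    rw [finsum_congr h3, finsum_add_distrib (Set.toFinite _) (Set.toFinite _), lin_pair, lin_pair]
    push_cast
    ring
  · intro k hk hk' H ψ
    have hrk : r = k := by
      rw [hr] at hk'
      have : (r : ℤ) = k := WithTop.coe_injective hk'
      exact_mod_cast this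
    subst hrk
    obtain ⟨n, hn, ho⟩ := A.mult_Lin H ψ
    have hH := (hS.comp H.subtype).twist ψ
    have h3 := (hH.low (r := r) (by simpa using h1) hn).2 hk
    rw [ho]
    have h4 : (-r : ℤ) < n := by linarith
    exact WithTop.coe_lt_coe.mpr h4

end Pool.Agent.Results.MP_7ed9c3_nt.DoubleZeros
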