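import Pool.Agent.R791.GaussGen

/-!
# Analytic continuation of `L(E/K, s)` and Gaussian sums of point counts

Let `E` be an elliptic curve over a number field `K` and let `L(s) = L(E/K, s)` be its full Euler product. For every
prime `v` of `K` let `α_{v,1}, α_{v,2}` be the inverse roots of the Euler factor (completed by zeros), so that
`|α_{v,j}| ≤ √Nv` (Hasse) and the sums `t(v^k) = α_{v,1}^k + α_{v,2}^k` are real: for good reduction
`t(v^k) = Nv^k + 1 - #E(k_{v,k})`, where `k_{v,k}` is the extension of degree `k` of the residue field. (Leaving out some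
primes, for example the bad ones, is allowed.) For real `b` and `y > 0` put

`Θ_b(y) = (4πy)^(-1/2) ∑_{v, k ≥ 1} t(v^k) log(Nv) Nv^(-kb) exp (-(k log Nv)² / (4y))`,

which converges absolutely. For all `E` and `K`, nothing being assumed on the continuation of `L`:

(1) `L` has an ENTIRE continuation if and only if for every real `b`, or only for arbitrarily negative `b`, `Θ_b` is for
every `ε > 0` an exponential sum with integral coefficients `≤ 0` up to `O(e^(εy))`: there are finitely many complex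
numbers `z` and integers `m(z) ≤ 0` with `Θ_b(y) = ∑_z m(z) e^(zy) + O(e^(εy))`, `y → ∞`. It has a MEROMORPHIC continuation
to `ℂ` if and only if the same holds with arbitrary integers `m(z)`.

(2) For real `b` and `θ ≥ 0` let `R(b, θ)` be the region `Re s > b`, `Re (s-b)² > θ`. Then `L` has a holomorphic
(meromorphic) continuation to `R(b, θ)` if and only if for every `ε > 0`
`Θ_b(y) = ∑_z m(z) e^(zy) + O(e^((θ+ε)y))` with finitely many complex numbers `z` and integers `m(z) ≤ 0` (integers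
`m(z)`), and a holomorphic one without zeros if and only if `Θ_b(y) = O(e^((θ+ε)y))` for every `ε > 0`.

(3) For such a continuation, `Θ_b(y) = -∑_s ord_s(L) e^((s-b)²y) + O(e^(θ'y))` for every `θ' > θ`, where `s` runs over all
zeros and poles in `R(b, θ')`, which are finite in number.

(4) For every real `t` (e.g. `t = 1`): `L` has a holomorphic continuation without zeros to `Re s > t` if and only if
`Θ_b(y) = O(e^(((t-b)² + ε)y))` for every `ε > 0` and all `b ≤ t`, or only for arbitrarily negative `b`.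

Proof. `Θ_b(y)` is the inverse Laplace transform of `-d/dv log L(b + √v)`. The zeros and poles become simple poles with
integral residues. For `Re v ≥ θ' > 0` only a compact set lies outside the region of convergence of the Euler product.
-/

set_option autoImplicit false

namespace Pool.Agent.Results.MP_7ed9c3_nt.GaussianSums

open Filter Topology Complex NumberField IsDedekindDomain
open Pool.Agent.R791.Frob

/-- `G` continues `L` from the half plane `Re s > 3/2`. -/
def Continues {K : Type} [Field K] [NumberField K] (V : Frobenius K 2 1) (G : ℂ → ℂ) : Prop :=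
  ∀ s : ℂ, 3 / 2 < s.re → G s = V.LSeries s

/-- **Analytic continuation of `L(E/K, s)` and Gaussian sums of point counts.** -/
theorem result {K : Type} [Field K] [NumberField K] (V : Frobenius K 2 1) :
    (∀ b y : ℝ, 0 < y → Summable (V.heatTerm b y)) ∧
    List.TFAE [
      ∃ G : ℂ → ℂ, Differentiable ℂ G ∧ Continues V G,
      ∀ b : ℝ, ExpSumIn (Set.Iic 0) (V.heat b) 0,
      ∀ B : ℝ, ∃ b : ℝ, b ≤ B ∧ ExpSumIn (Set.Iic 0) (V.heat b) 0] ∧
    List.TFAE [
      ∃ G : ℂ → ℂ, (∀ s : ℂ, MeromorphicAt G s) ∧ Continues V G,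
      ∀ b : ℝ, ExpSumIn Set.univ (V.heat b) 0,
      ∀ B : ℝ, ∃ b : ℝ, b ≤ B ∧ ExpSumIn Set.univ (V.heat b) 0] ∧
    (∀ b θ : ℝ, 0 ≤ θ →
      ((∃ G : ℂ → ℂ, (∀ s : ℂ, s ∈ Region b θ ∨ 3 / 2 < s.re → MeromorphicAt G s) ∧
        Continues V G) ↔ ExpSumIn Set.univ (V.heat b) θ) ∧
      ((∃ G : ℂ → ℂ, (∀ s : ℂ, s ∈ Region b θ ∨ 3 / 2 < s.re → DifferentiableAt ℂ G s) ∧
        Continues V G) ↔ ExpSumIn (Set.Iic 0) (V.heat b) θ) ∧
      ((∃ G : ℂ → ℂ, (∀ s : ℂ, s ∈ Region b θ ∨ 3 / 2 < s.re →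
          DifferentiableAt ℂ G s ∧ G s ≠ 0) ∧
        Continues V G) ↔ BoundLE (V.heat b) θ)) ∧
    (∀ (b θ θ' : ℝ) (G : ℂ → ℂ), 0 ≤ θ → θ < θ' → (∀ s ∈ Region b θ, MeromorphicAt G s) →
      Continues V G →
      ∃ (hfin : {s : ℂ | s ∈ Region b θ' ∧ meromorphicOrderAt G s ≠ 0}.Finite) (C : ℝ),
        ∀ y : ℝ, 0 < y → ‖(V.heat b y : ℂ) + ∑ s ∈ hfin.toFinset,
          ((meromorphicOrderAt G s).untop₀ : ℂ) * Complex.exp ((s - b) ^ 2 * y)‖ ≤
            C * Real.exp (θ' * y)) ∧
    ∀ t : ℝ, List.TFAE [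
      ∃ G : ℂ → ℂ, (∀ s : ℂ, t < s.re ∨ 3 / 2 < s.re → DifferentiableAt ℂ G s ∧ G s ≠ 0) ∧
        Continues V G,
      ∀ b : ℝ, b ≤ t → BoundLE (V.heat b) ((t - b) ^ 2),
      ∀ B : ℝ, ∃ b : ℝ, b ≤ B ∧ b ≤ t ∧ BoundLE (V.heat b) ((t - b) ^ 2)] := by
  obtain ⟨h1, h2, h3, h4, h5, h6⟩ := Pool.Agent.R791.GaussGen.gauss_gen V
  have h32 : ∀ s : ℂ, (1 : ℝ) + 1 / 2 < s.re ↔ 3 / 2 < s.re := fun s => by norm_num
  have hC : ∀ G : ℂ → ℂ, Pool.Agent.R791.GaussGen.Continues V G ↔ Continues V G := fun G => by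
    unfold Pool.Agent.R791.GaussGen.Continues Continues
    simp only [h32]
  simp only [h32, hC] at h2 h3 h4 h5 h6
  exact ⟨h1, h5, h4, h2, h3, h6⟩

end Pool.Agent.Results.MP_7ed9c3_nt.GaussianSums
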