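import Pool.Agent.R791.Land4
import Pool.Agent.R791.CurveNF

/-!
# Continuation of `L(E/K, s)` to a half plane from a real segment and a one-sided bound

Let `K` be ANY number field and `E : y² = x³ + a x + b`, `a, b ∈ 𝓞_K`; `v` runs over the primes of `K` that do not
divide `6(4a³+27b²)`, and `#E(k_v) = N_v + 1`. Let `L(E/K, s)` be the Euler product over these `v`, `Re s > 3/2`. For
`1 < ρ < ρ'` let

`w_ρ(u) = (2π)⁻¹ ∫ Re (exp (z - u z^(1/ρ)) / z) dt`, `z = 1 + it`, and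
`S_ρ(Y) = ∑_{Nv ≤ exp((log Y)^ρ')} w_ρ(log Nv / log Y) log (#E(k_v)/Nv)`,

a FINITE sum of point counts. Nothing is assumed on the continuation of `L(E/K, s)`; it is proved that the
continuation without zeros to a half plane is equivalent to a continuation along a REAL segment together with a
ONE-SIDED bound for these sums:

(1) For `1 < ρ < ρ'` and `θ ≥ 0` the following are equivalent: `L(E/K, s)` has a holomorphic continuation without
zeros to the region `|arg (s-1)| < π/(2ρ)`, `Re (s-1)^ρ > θ`; `L(E/K, s)` continues analytically (zeros are allowed)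
along the real axis to `(1 + θ^(1/ρ), ∞)`, and `S_ρ(Y) ≤ C(ε) exp ((θ + ε) (log Y)^ρ)` for every `ε > 0` (no lower
bound); `1/L(E/K, s)` continues analytically along the real axis to `(1 + θ^(1/ρ), ∞)`, and
`S_ρ(Y) ≥ -C(ε) exp ((θ + ε) (log Y)^ρ)` (no upper bound).

(2) For `t ≥ 0`: `L(E/K, s)` has a holomorphic continuation without zeros to the half plane `Re s > 1 + t` if and only
if it continues analytically along the real segment `(1 + t, 3/2]` and the upper bounds of (1) with `θ = t^ρ` hold for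
all `1 < ρ < ρ'`, or only for `ρ` arbitrarily near `1`; and the same with `1/L` and the lower bounds.

(3) For a continuable pair, i.e. if `L(E/K, s)` has an entire continuation `F` (of order `m` at `s = 1`): `F` has no
zeros in the region of (1) iff the upper bound holds, iff the lower bound holds and there are no REAL zeros
`> 1 + θ^(1/ρ)`; and `F` has no zeros with `Re s > 1` (with the functional equation: the Riemann hypothesis for `E/K`)
iff `S_ρ(Y) ≤ C(ε) exp (ε (log Y)^ρ)`, `ε > 0`, for `ρ` arbitrarily near `1`, iff `F` has no real zeros `> 1` and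
`S_ρ(Y) ≥ -C(ε) exp (ε (log Y)^ρ)` for such `ρ`, iff `S_ρ(Y) = m log log Y + O(1)` for all `1 < ρ < ρ'`.

Proof. In the variable `v = (s-1)^ρ` the function `-log L(E/K, s)` is, up to a function holomorphic for `Re s > 1`, `v`
times the Laplace transform of the means `S_ρ` with respect to `y = (log Y)^ρ`. By the theorem of Landau the one-sided
bound makes the transform converge up to the first singularity on the real axis. A zero of `L` there would make the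
transform of a nonnegative function tend to `-∞`.
-/

set_option autoImplicit false

namespace Pool.Agent.Results.MP_7ed9c3_nt.LandauContinuation

open Filter Topology Complex NumberField IsDedekindDomain
open Pool.Agent.TH942.ES Pool.Agent.R791.SectGen Pool.Agent.R791.CurveNF

/-- The part `Re (s-1)^ρ > θ` of the sector `|arg (s-1)| < π/(2ρ)`. -/
def Region (ρ θ : ℝ) : Set ℂ :=
  {s | (s ≠ 1 ∧ |(s - 1).arg| < Real.pi / (2 * ρ)) ∧ θ < ((s - 1) ^ (ρ : ℂ)).re}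

variable {K : Type} [Field K] [NumberField K]

/-- `S_ρ(Y) ≤ C(ε) exp ((θ + ε) (log Y)^ρ)` for every `ε > 0` and all large `Y`. -/
def UpperLE (a b : 𝓞 K) (ρ ρ' θ : ℝ) : Prop :=
  ∀ ε : ℝ, 0 < ε → ∃ C : ℝ, ∀ᶠ Y : ℝ in atTop,
    sum a b ρ ρ' Y ≤ C * Real.exp ((θ + ε) * Real.log Y ^ ρ)

/-- `S_ρ(Y) ≥ -C(ε) exp ((θ + ε) (log Y)^ρ)` for every `ε > 0` and all large `Y`. -/
def LowerLE (a b : 𝓞 K) (ρ ρ' θ : ℝ) : Prop :=
  ∀ ε : ℝ, 0 < ε → ∃ C : ℝ, ∀ᶠ Y : ℝ in atTop,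
    -sum a b ρ ρ' Y ≤ C * Real.exp ((θ + ε) * Real.log Y ^ ρ)

/-- `L(E/K, s)` continues analytically along the real axis to `(1 + t, ∞)` (zeros are allowed). -/
def Along (a b : 𝓞 K) (t : ℝ) : Prop :=
  ∃ G : ℂ → ℂ, (∀ x : ℝ, 1 + t < x → AnalyticAt ℂ G x) ∧
    ∀ s : ℂ, 3 / 2 < s.re → G s = LSeries a b s

/-- `1/L(E/K, s)` continues analytically along the real axis to `(1 + t, ∞)`. -/
def AlongInv (a b : 𝓞 K) (t : ℝ) : Prop :=
  ∃ G : ℂ → ℂ, (∀ x : ℝ, 1 + t < x → AnalyticAt ℂ G x) ∧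
    ∀ s : ℂ, 3 / 2 < s.re → G s = (LSeries a b s)⁻¹

/-- **From a real segment and a one-sided bound to a half plane.** -/
theorem result (a b : 𝓞 K) :
    (∀ ρ ρ' θ : ℝ, 1 < ρ → ρ < ρ' → 0 ≤ θ → List.TFAE [
      ∃ G : ℂ → ℂ,
        (∀ s : ℂ, s ∈ Region ρ θ ∨ 3 / 2 < s.re → DifferentiableAt ℂ G s ∧ G s ≠ 0) ∧
        ∀ s : ℂ, 3 / 2 < s.re → G s = LSeries a b s,
      Along a b (θ ^ ρ⁻¹) ∧ UpperLE a b ρ ρ' θ,
      AlongInv a b (θ ^ ρ⁻¹) ∧ LowerLE a b ρ ρ' θ]) ∧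
    (∀ t : ℝ, 0 ≤ t → List.TFAE [
      ∃ G : ℂ → ℂ, (∀ s : ℂ, 1 + t < s.re ∨ 3 / 2 < s.re → DifferentiableAt ℂ G s ∧ G s ≠ 0) ∧
        ∀ s : ℂ, 3 / 2 < s.re → G s = LSeries a b s,
      Along a b t ∧ ∀ ρ ρ' : ℝ, 1 < ρ → ρ < ρ' → UpperLE a b ρ ρ' (t ^ ρ),
      Along a b t ∧ ∀ ρ₁ : ℝ, 1 < ρ₁ → ∃ ρ ρ' : ℝ, 1 < ρ ∧ ρ < ρ₁ ∧ ρ < ρ' ∧
        UpperLE a b ρ ρ' (t ^ ρ),
      AlongInv a b t ∧ ∀ ρ ρ' : ℝ, 1 < ρ → ρ < ρ' → LowerLE a b ρ ρ' (t ^ ρ),
      AlongInv a b t ∧ ∀ ρ₁ : ℝ, 1 < ρ₁ → ∃ ρ ρ' : ℝ, 1 < ρ ∧ ρ < ρ₁ ∧ ρ < ρ' ∧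
        LowerLE a b ρ ρ' (t ^ ρ)]) ∧
    ∀ (F : ℂ → ℂ) (m : ℕ), Differentiable ℂ F → (∀ s : ℂ, 3 / 2 < s.re → F s = LSeries a b s) →
      analyticOrderAt F 1 = m →
      (∀ ρ ρ' θ : ℝ, 1 < ρ → ρ < ρ' → 0 ≤ θ → List.TFAE [
        ∀ s ∈ Region ρ θ, F s ≠ 0,
        UpperLE a b ρ ρ' θ,
        (∀ x : ℝ, 1 + θ ^ ρ⁻¹ < x → F x ≠ 0) ∧ LowerLE a b ρ ρ' θ]) ∧
      List.TFAE [
        ∀ s : ℂ, 1 < s.re → F s ≠ 0,
        ∀ ρ ρ' : ℝ, 1 < ρ → ρ < ρ' → ∃ C : ℝ, ∀ᶠ Y : ℝ in atTop,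
          |sum a b ρ ρ' Y - m * Real.log (Real.log Y)| ≤ C,
        ∀ ρ₁ : ℝ, 1 < ρ₁ → ∃ ρ ρ' : ℝ, 1 < ρ ∧ ρ < ρ₁ ∧ ρ < ρ' ∧ UpperLE a b ρ ρ' 0,
        (∀ x : ℝ, 1 < x → F x ≠ 0) ∧
          ∀ ρ₁ : ℝ, 1 < ρ₁ → ∃ ρ ρ' : ℝ, 1 < ρ ∧ ρ < ρ₁ ∧ ρ < ρ' ∧ LowerLE a b ρ ρ' 0] := by
  have E := curve_sys a b
  have hU : ∀ ρ ρ' θ : ℝ, UpperLE a b ρ ρ' θ ↔ Pool.Agent.R791.Land.One
      (fun v : {v // GoodV a b v} => Pool.Agent.H921R2.TatePole.nm v.1) (alV a b) 1 ρ ρ' θ := by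
    intro ρ ρ' θ
    unfold UpperLE Pool.Agent.R791.Land.One
    simp only [sum_eq, one_mul]
  have hL : ∀ ρ ρ' θ : ℝ, LowerLE a b ρ ρ' θ ↔ Pool.Agent.R791.Land.One
      (fun v : {v // GoodV a b v} => Pool.Agent.H921R2.TatePole.nm v.1) (alV a b) (-1) ρ ρ' θ := by
    intro ρ ρ' θ
    unfold LowerLE Pool.Agent.R791.Land.One
    simp only [sum_eq, neg_mul, one_mul]
  have hR : ∀ ρ θ, Region ρ θ = Pool.Agent.R791.Level.LvAt 1 ρ θ := fun ρ θ => by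
    unfold Region Pool.Agent.R791.Level.LvAt SectorAt
    simp only [Complex.ofReal_one, Set.mem_ofPred_eq]
  have h32 : ∀ s : ℂ, (1 : ℝ) + 1 / 2 < s.re ↔ 3 / 2 < s.re := fun s => by norm_num
  have hLE : ∀ s : ℂ, LE (fun v : {v // GoodV a b v} => Pool.Agent.H921R2.TatePole.nm v.1)
      (alV a b) (s - (1 : ℝ)) = LSeries a b s := fun s => by
    rw [Complex.ofReal_one, LE_eq]
  have hA : ∀ t : ℝ, Along a b t ↔ Pool.Agent.R791.Land.Axis
      (fun v : {v // GoodV a b v} => Pool.Agent.H921R2.TatePole.nm v.1) (alV a b) 1 t := by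
    intro t
    unfold Along Pool.Agent.R791.Land.Axis
    simp only [h32, hLE]
  have hAI : ∀ t : ℝ, AlongInv a b t ↔ Pool.Agent.R791.Land.AxisInv
      (fun v : {v // GoodV a b v} => Pool.Agent.H921R2.TatePole.nm v.1) (alV a b) 1 t := by
    intro t
    unfold AlongInv Pool.Agent.R791.Land.AxisInv
    simp only [h32, hLE]
  refine ⟨fun ρ ρ' θ hρ hρ' hθ => ?_, fun t ht => ?_, fun F m hF he hm => ⟨fun ρ ρ' θ hρ hρ' hθ => ?_,
    ?_⟩⟩
  · have h1 := Pool.Agent.R791.Land.seg_tfae E 1 hρ hρ' hθ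
    simp only [h32, hLE] at h1
    simp only [hU, hL, hA, hAI, hR]
    exact h1
  · have h1 := Pool.Agent.R791.Land.half_seg_tfae E 1 ht
    simp only [h32, hLE] at h1
    simp only [hU, hL, hA, hAI]
    exact h1
  · have he' : ∀ s : ℂ, (1 : ℝ) + 1 / 2 < s.re → F s =
        LE (fun v : {v // GoodV a b v} => Pool.Agent.H921R2.TatePole.nm v.1)
          (alV a b) (s - (1 : ℝ)) := fun s hs => by
      rw [hLE]; exact he s ((h32 s).1 hs)
    have h1 := Pool.Agent.R791.Land.entire_lvl E 1 (F := F) (fun s _ => hF s) he' hρ hρ' hθ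
    simp only [hU, hL, hR]
    tfae_have 1 ↔ 2 := by
      have h2 : (∀ s ∈ SectorAt 1 ρ, θ < ((s - (1 : ℝ)) ^ (ρ : ℂ)).re → F s ≠ 0) ↔
          Pool.Agent.R791.Land.One (fun v : {v // GoodV a b v} =>
            Pool.Agent.H921R2.TatePole.nm v.1) (alV a b) 1 ρ ρ' θ := h1.out 0 2
      rw [← h2]
      constructor
      · exact fun h s hs1 hs2 => h s ⟨hs1, hs2⟩
      · exact fun h s hs => h s hs.1 hs.2
    tfae_have 2 ↔ 3 := h1.out 2 3
    tfae_finish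
  · have he' : ∀ s : ℂ, (1 : ℝ) + 1 / 2 < s.re → F s =
        LE (fun v : {v // GoodV a b v} => Pool.Agent.H921R2.TatePole.nm v.1)
          (alV a b) (s - (1 : ℝ)) := fun s hs => by
      rw [hLE]; exact he s ((h32 s).1 hs)
    have hm' : analyticOrderAt F ((1 : ℝ) : ℂ) = m := by rw [Complex.ofReal_one]; exact hm
    have h1 := Pool.Agent.R791.Land.entire_rh E 1 (F := F) (fun s _ => hF s) he'
      (hF.analyticAt _) hm'
    simp only [← sum_eq] at h1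
    simp only [hU, hL]
    exact h1

end Pool.Agent.Results.MP_7ed9c3_nt.LandauContinuation
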